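import Mathlib
import Pool.Agent.H.MP_472e54_mp.Mirror

namespace Pool.Agent.Results.MP_472e54_mp.NotLU

open Matrix
open scoped Kronecker ComplexOrder

/-- states -/
def St {ι : Type} [Fintype ι] (ρ : Matrix ι ι ℂ) : Prop := ρ.PosSemidef ∧ ρ.trace = 1

/-- entanglement witnesses -/
def EW {ι κ : Type} [Fintype ι] [Fintype κ] (W : Matrix (ι × κ) (ι × κ) ℂ) : Prop :=
  W.IsHermitian ∧
    (∀ σ ∈ convexHull ℝ {σ | ∃ α β, St α ∧ St β ∧ σ = α ⊗ₖ β}, 0 ≤ (W * σ).trace.re) ∧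
    ∃ ρ, St ρ ∧ (W * ρ).trace.re < 0

/-- optimal entanglement witnesses -/
def Opt {ι κ : Type} [Fintype ι] [Fintype κ] (W : Matrix (ι × κ) (ι × κ) ℂ) : Prop :=
  EW W ∧ ¬ ∃ (ε : ℝ) (P : Matrix (ι × κ) (ι × κ) ℂ), 0 < ε ∧ P.PosSemidef ∧ P ≠ 0 ∧
    EW (W - (ε : ℂ) • P)

open Pool.Agent.H.MP_472e54_mp in
theorem result : ∃ (W M : Matrix (Fin 3 × Fin 3) (Fin 3 × Fin 3) ℂ) (u : ℝ),
    Opt W ∧ Opt M ∧ W + M = (u : ℂ) • 1 ∧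
    ¬ ∃ U₁ U₂ : unitaryGroup (Fin 3) ℂ, M = (U₁.1 ⊗ₖ U₂.1) * W * (U₁.1 ⊗ₖ U₂.1)ᴴ := by
  have h : ∀ Z, L (Equiv.prodUnique (Fin 3) Unit).symm Z = Z := by
    intro Z
    ext x y
    simp [L]
  have h1 := opt_pos (Equiv.prodUnique (Fin 3) Unit).symm
  have h2 := opt_neg (Equiv.prodUnique (Fin 3) Unit).symm
  rw [h] at h1 h2
  refine ⟨_, _, 76, h1, h2, by exact_mod_cast Y_add, ?_⟩
  rintro ⟨U, V, h3⟩
  have h4 : (U.1 ⊗ₖ V.1)ᴴ * (U.1 ⊗ₖ V.1) = 1 := by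
    rw [conjTranspose_kronecker, ← mul_kronecker_mul, show U.1ᴴ * U.1 = 1 from U.2.1,
      show V.1ᴴ * V.1 = 1 from V.2.1, one_kronecker_one]
  apply Y_cube
  generalize U.1 ⊗ₖ V.1 = A at h3 h4
  have h5 : ∀ B, Aᴴ * (A * B) = B := fun B => by rw [← Matrix.mul_assoc, h4, Matrix.one_mul]
  rw [h3]
  simp only [pow_succ, pow_zero, Matrix.one_mul, Matrix.mul_assoc, h5]
  rw [trace_mul_comm A]
  simp only [Matrix.mul_assoc, h4, Matrix.mul_one]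

end Pool.Agent.Results.MP_472e54_mp.NotLU
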